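import Pool.Agent.helper97.BG.SigDefs

/-!
# Existence of pentagon data and of admissible coefficients
-/

namespace Pool.Agent.helper97.BG

open Polynomial Filter Module

universe u

namespace EX

variable {k K : Type*} [Field k] [Field K] [Algebra k K]

theorem ne_one_of_ind {a b : K} (h : AlgebraicIndependent k ![a, b]) : a ^ 5 * b ^ 5 ≠ 1 := by
  intro h1
  have h2 : MvPolynomial.aeval ![a, b]
      ((MvPolynomial.X 0 : MvPolynomial (Fin 2) k) ^ 5 * MvPolynomial.X 1 ^ 5 - 1) = 0 := by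
    simp [h1]
  have h3 := algebraicIndependent_iff.1 h _ h2
  have h4 := congrArg (MvPolynomial.eval (fun _ => (0 : k))) h3
  simp at h4

/-- the five elements satisfying the pentagon relations -/
theorem exists_V [IsAlgClosed K] {a b : K} (h : a ^ 5 * b ^ 5 ≠ 1) :
    ∃ V : Fin 5 → K, V 0 = a ∧ V 1 = b ∧ ∀ i, V i ^ 5 + V (i + 2) ^ 5 * V (i + 3) ^ 5 = 1 := by
  have h3 : 1 - a ^ 5 * b ^ 5 ≠ 0 := sub_ne_zero.2 (Ne.symm h)
  obtain ⟨V3, hV3⟩ := IsAlgClosed.exists_pow_nat_eq (1 - a ^ 5 * b ^ 5) (n := 5) (by norm_num)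
  obtain ⟨V2, hV2⟩ := IsAlgClosed.exists_pow_nat_eq ((1 - a ^ 5) / (1 - a ^ 5 * b ^ 5)) (n := 5)
    (by norm_num)
  obtain ⟨V4, hV4⟩ := IsAlgClosed.exists_pow_nat_eq ((1 - b ^ 5) / (1 - a ^ 5 * b ^ 5)) (n := 5)
    (by norm_num)
  refine ⟨![a, b, V2, V3, V4], rfl, rfl, ?_⟩
  intro i
  obtain ⟨D, hD⟩ : ∃ D, D = 1 - a ^ 5 * b ^ 5 := ⟨_, rfl⟩
  rw [← hD] at h3 hV2 hV3 hV4
  fin_cases i
  · change a ^ 5 + V2 ^ 5 * V3 ^ 5 = 1
    rw [hV2, hV3]; field_simp; ring
  · change b ^ 5 + V3 ^ 5 * V4 ^ 5 = 1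
    rw [hV3, hV4]; field_simp; ring
  · change V2 ^ 5 + V4 ^ 5 * a ^ 5 = 1
    rw [hV2, hV4]; field_simp; rw [hD]; ring
  · change V3 ^ 5 + a ^ 5 * b ^ 5 = 1
    rw [hV3, hD]; ring
  · change V4 ^ 5 + b ^ 5 * V2 ^ 5 = 1
    rw [hV2, hV4]; field_simp; rw [hD]; ring

theorem adjoin_preimage {E : IntermediateField k K} {S : Set K} (hE : E = IntermediateField.adjoin k S)
    {T : Set E} (hT : (fun x : E => (x : K)) '' T = S) : IntermediateField.adjoin k T = ⊤ := by
  apply IntermediateField.lift_injective E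
  rw [IntermediateField.lift_adjoin, IntermediateField.lift_top]
  exact (congrArg (IntermediateField.adjoin k) hT).trans hE.symm

theorem alg_top (d : PD k K) :
    Algebra.IsAlgebraic (IntermediateField.adjoin k (Set.range ![d.V 0, d.V 1])) K := by
  set E := IntermediateField.adjoin k (Set.range ![d.V 0, d.V 1]) with hE
  have h0 : d.V 0 ∈ E := IntermediateField.subset_adjoin k _ ⟨0, rfl⟩
  have h1 : d.V 1 ∈ E := IntermediateField.subset_adjoin k _ ⟨1, rfl⟩
  have h3 : d.V 3 ^ 5 = 1 - d.V 0 ^ 5 * d.V 1 ^ 5 := by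
    have := d.rel 3
    change d.V 3 ^ 5 + d.V 0 ^ 5 * d.V 1 ^ 5 = 1 at this
    linear_combination this
  have h3' : d.V 3 ^ 5 ≠ 0 := by
    rw [h3]; exact sub_ne_zero.2 (Ne.symm (ne_one_of_ind d.ind))
  have h2 : d.V 2 ^ 5 = (1 - d.V 0 ^ 5) / d.V 3 ^ 5 := by
    have := d.rel 0
    change d.V 0 ^ 5 + d.V 2 ^ 5 * d.V 3 ^ 5 = 1 at this
    rw [eq_div_iff h3']
    linear_combination this
  have h4 : d.V 4 ^ 5 = (1 - d.V 1 ^ 5) / d.V 3 ^ 5 := by
    have := d.rel 1
    change d.V 1 ^ 5 + d.V 3 ^ 5 * d.V 4 ^ 5 = 1 at this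
    rw [eq_div_iff h3']
    linear_combination this
  have m3 : d.V 3 ^ 5 ∈ E := by
    rw [h3]
    exact sub_mem (one_mem _) (mul_mem (pow_mem h0 _) (pow_mem h1 _))
  have m2 : d.V 2 ^ 5 ∈ E := by
    rw [h2]
    exact div_mem (sub_mem (one_mem _) (pow_mem h0 _)) m3
  have m4 : d.V 4 ^ 5 ∈ E := by
    rw [h4]
    exact div_mem (sub_mem (one_mem _) (pow_mem h1 _)) m3
  have mV : ∀ i, d.V i ^ 5 ∈ E := by
    intro i
    fin_cases i
    · exact pow_mem h0 _
    · exact pow_mem h1 _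
    · exact m2
    · exact m3
    · exact m4
  have my : d.y ^ 5 ∈ E := by
    rw [d.yrel]
    exact sum_mem fun i _ => mul_mem (E.algebraMap_mem _) (mV i)
  have key : ∀ x : K, x ^ 5 ∈ E → IsAlgebraic E x := by
    intro x hx
    refine ⟨X ^ 5 - C ⟨x ^ 5, hx⟩, ?_, ?_⟩
    · exact X_pow_sub_C_ne_zero (by norm_num) _
    · simp
  have hle : (⊤ : IntermediateField k K) ≤ (algebraicClosure E K).restrictScalars k := by
    rw [← d.gen, IntermediateField.adjoin_le_iff]
    rintro x (rfl | ⟨i, rfl⟩)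
    · exact mem_algebraicClosure_iff.2 (key _ my)
    · exact mem_algebraicClosure_iff.2 (key _ (mV i))
  refine ⟨fun x => ?_⟩
  have hx : x ∈ (algebraicClosure E K).restrictScalars k := hle trivial
  exact mem_algebraicClosure_iff.1 hx

end EX

theorem exists_PD {k : Type u} [Field k] [IsAlgClosed k] (c : Fin 5 → k) :
    ∃ (K : Type u) (_ : Field K) (_ : Algebra k K) (d : PD k K), d.c = c := by
  classical
  let F := FractionRing (MvPolynomial (Fin 2) k)
  let Ω := AlgebraicClosure F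
  let f : MvPolynomial (Fin 2) k →ₐ[k] Ω :=
    (IsScalarTower.toAlgHom k F Ω).comp (IsScalarTower.toAlgHom k (MvPolynomial (Fin 2) k) F)
  have hf : Function.Injective f :=
    (algebraMap F Ω).injective.comp (IsFractionRing.injective (MvPolynomial (Fin 2) k) F)
  have hX : AlgebraicIndependent k (f ∘ (MvPolynomial.X : Fin 2 → MvPolynomial (Fin 2) k)) :=
    (MvPolynomial.algebraicIndependent_X (Fin 2) k).map' hf
  have hX' : AlgebraicIndependent k ![f (MvPolynomial.X 0), f (MvPolynomial.X 1)] := by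
    convert hX using 1
    ext i
    fin_cases i <;> rfl
  obtain ⟨V, hV0, hV1, hrel⟩ := EX.exists_V (EX.ne_one_of_ind hX')
  obtain ⟨y, hy⟩ := IsAlgClosed.exists_pow_nat_eq (∑ i, algebraMap k Ω (c i) * V i ^ 5) (n := 5)
    (by norm_num)
  let E : IntermediateField k Ω := IntermediateField.adjoin k (insert y (Set.range V))
  have hVE : ∀ i, V i ∈ E := fun i => IntermediateField.subset_adjoin k _ (Or.inr ⟨i, rfl⟩)
  have hyE : y ∈ E := IntermediateField.subset_adjoin k _ (Or.inl rfl)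
  refine ⟨E, inferInstance, inferInstance,
    { V := fun i => ⟨V i, hVE i⟩
      y := ⟨y, hyE⟩
      c := c
      rel := fun i => Subtype.ext (by simpa using hrel i)
      yrel := Subtype.ext (by simpa using hy)
      ind := ?_
      gen := ?_ }, rfl⟩
  · apply AlgebraicIndependent.of_comp E.val
    convert hX' using 1
    ext i
    fin_cases i
    · exact hV0
    · exact hV1
  · apply EX.adjoin_preimage (S := insert y (Set.range V)) rfl
    rw [Set.image_insert_eq]
    congr 1
    ext x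
    constructor
    · rintro ⟨_, ⟨i, rfl⟩, rfl⟩
      exact ⟨i, rfl⟩
    · rintro ⟨i, rfl⟩
      exact ⟨_, ⟨i, rfl⟩, rfl⟩

theorem exists_adm (k : Type*) [Field k] [IsAlgClosed k] [CharP k 2] :
    ∃ c : Fin 5 → k, Adm c := by
  obtain ⟨r, hr⟩ : ∃ r : k, r ^ 3 = r + 1 := by
    obtain ⟨r, hr⟩ := IsAlgClosed.exists_root (X ^ 3 - X - 1 : k[X]) (by
      have : (X ^ 3 - X - 1 : k[X]).degree = 3 := by compute_degree!
      rw [this]; norm_num)
    refine ⟨r, ?_⟩
    simp only [IsRoot.def, eval_sub, eval_pow, eval_X, eval_one] at hr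
    linear_combination hr
  have h2 : (2 : k) = 0 := CharTwo.two_eq_zero
  have r0 : r ≠ 0 := by
    rintro rfl
    simp at hr
  have r1 : 1 + r ≠ 0 := by
    intro h
    have : r = 1 := by linear_combination h - h2
    rw [this] at hr
    have : (1 : k) = 0 := by linear_combination h2 + hr
    exact one_ne_zero this
  have r2 : r ^ 2 + r + 1 ≠ 0 := by
    intro h
    apply r0
    linear_combination (r - 1) * h - hr
  refine ⟨![1, 1, r, r, r ^ 2], ?_, ?_, ?_, ?_⟩
  · intro i
    fin_cases i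
    · exact one_ne_zero
    · exact one_ne_zero
    · exact r0
    · exact r0
    · exact pow_ne_zero 2 r0
  · intro i
    fin_cases i
    · exact r1
    · exact r1
    · change r + r ^ 2 ≠ 0
      have : r + r ^ 2 = r * (1 + r) := by ring
      rw [this]
      exact mul_ne_zero r0 r1
    · change r + 1 ≠ 0
      rw [add_comm]; exact r1
    · change r ^ 2 + 1 ≠ 0
      have : r ^ 2 + 1 = (1 + r) ^ 2 := by linear_combination - h2 * r
      rw [this]
      exact pow_ne_zero 2 r1
  · intro i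
    fin_cases i
    · change 1 + 1 + r ≠ 0
      have : 1 + 1 + r = r := by linear_combination h2
      rw [this]; exact r0
    · change 1 + r + r ≠ 0
      have : 1 + r + r = 1 := by linear_combination r * h2
      rw [this]; exact one_ne_zero
    · change r + r + r ^ 2 ≠ 0
      have : r + r + r ^ 2 = r ^ 2 := by linear_combination r * h2
      rw [this]; exact pow_ne_zero 2 r0
    · change r + r ^ 2 + 1 ≠ 0
      have : r + r ^ 2 + 1 = r ^ 2 + r + 1 := by ring
      rw [this]; exact r2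
    · change r ^ 2 + 1 + 1 ≠ 0
      have : r ^ 2 + 1 + 1 = r ^ 2 := by linear_combination h2
      rw [this]; exact pow_ne_zero 2 r0
  · rw [Fin.sum_univ_five]
    change 1 * 1 * r + 1 * r * r + r * r * r ^ 2 + r * r ^ 2 * 1 + r ^ 2 * 1 * 1 ≠ 0
    have : 1 * 1 * r + 1 * r * r + r * r * r ^ 2 + r * r ^ 2 * 1 + r ^ 2 * 1 * 1 = r ^ 2 + r + 1 := by
      linear_combination (r + 1) * hr + h2 * (r ^ 2 + r)
    rw [this]; exact r2

theorem Adm.kumCond {k : Type*} [Field k] {c : Fin 5 → k} (h : Adm c) : KumCond c where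
  h234 := h.three 2
  h034 := by
    have := h.three 3
    change c 3 + c 4 + c 0 ≠ 0 at this
    rwa [add_comm, ← add_assoc] at this
  h123 := h.three 1
  h2 := h.one 2
  h0 := h.one 0

theorem PD.trdeg_eq {k K : Type*} [Field k] [Field K] [Algebra k K] (d : PD k K) :
    Algebra.trdeg k K = 2 := by
  have halg : Algebra.IsAlgebraic (Algebra.adjoin k (Set.range ![d.V 0, d.V 1])) K := by
    have h1 : Algebra.IsAlgebraic (IntermediateField.adjoin k (Set.range ![d.V 0, d.V 1])) K :=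
      EX.alg_top d
    open scoped IntermediateField.algebraAdjoinAdjoin in
    exact Algebra.IsAlgebraic.trans _ (IntermediateField.adjoin k (Set.range ![d.V 0, d.V 1])) _
  have hB : IsTranscendenceBasis k ![d.V 0, d.V 1] :=
    d.ind.isTranscendenceBasis_iff_isAlgebraic.2 halg
  have := hB.lift_cardinalMk_eq_trdeg
  simpa using this.symm

end Pool.Agent.helper97.BG
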