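import Pool.Agent.helper18.BG.QB

/-!
# The lifting to the Witt vectors of length two
-/

namespace Pool.Agent.helper97.BG

open Polynomial Filter Module

universe u

set_option linter.unusedSectionVars false

namespace LIFT

/-! ### Rees algebras of filtrations -/

section rees

variable {R A : Type u} [CommRing R] [CommRing A] [Algebra R A]

/-- Multiplicative families of submodules. -/
structure Mul (F : ℕ → Submodule R A) : Prop where
  one : (1 : A) ∈ F 0
  mul : ∀ m n a b, a ∈ F m → b ∈ F n → a * b ∈ F (m + n)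

variable {F : ℕ → Submodule R A} (hF : Mul F)

/-- The Rees algebra. -/
def rees (hF : Mul F) : Subalgebra R A[X] where
  carrier := {p | ∀ m, p.coeff m ∈ F m}
  mul_mem' := by
    intro p q hp hq m
    rw [coeff_mul]
    refine sum_mem fun x hx => ?_
    rw [← Finset.HasAntidiagonal.mem_antidiagonal.1 hx]
    exact hF.mul _ _ _ _ (hp _) (hq _)
  add_mem' := by
    intro p q hp hq m
    rw [coeff_add]
    exact add_mem (hp m) (hq m)
  algebraMap_mem' := by
    intro r m
    rw [Polynomial.algebraMap_apply, coeff_C]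
    split_ifs with h
    · subst h
      rw [Algebra.algebraMap_eq_smul_one]
      exact Submodule.smul_mem _ _ hF.one
    · exact zero_mem _

theorem mem_rees {p : A[X]} : p ∈ rees hF ↔ ∀ m, p.coeff m ∈ F m := Iff.rfl

/-- The homogeneous elements of degree `m`. -/
def piece (m : ℕ) : Submodule R (rees hF) where
  carrier := {p | ∀ j, j ≠ m → (p : A[X]).coeff j = 0}
  add_mem' := by
    intro p q hp hq j hj
    simp [hp j hj, hq j hj]
  zero_mem' := by
    intro j _
    simp
  smul_mem' := by
    intro r p hp j hj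
    simp [hp j hj]

theorem mem_piece {m : ℕ} {p : rees hF} :
    p ∈ piece hF m ↔ ∀ j, j ≠ m → (p : A[X]).coeff j = 0 := Iff.rfl

/-- Homogeneous elements. -/
noncomputable def hom (m : ℕ) : F m →ₗ[R] rees hF where
  toFun a := ⟨monomial m (a : A), fun j => by
    rw [coeff_monomial]
    split_ifs with h
    · subst h; exact a.2
    · exact zero_mem _⟩
  map_add' a b := by
    apply Subtype.ext
    change monomial m ((a : A) + b) = monomial m (a : A) + monomial m (b : A)
    rw [map_add]
  map_smul' r a := by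
    apply Subtype.ext
    change monomial m (r • (a : A)) = r • monomial m (a : A)
    rw [smul_monomial]

theorem coe_hom (m : ℕ) (a : F m) : (hom hF m a : A[X]) = monomial m (a : A) := rfl

theorem hom_mem (m : ℕ) (a : F m) : hom hF m a ∈ piece hF m := by
  intro j hj
  rw [coe_hom, coeff_monomial, if_neg (Ne.symm hj)]

/-- The coefficient of degree `m`. -/
noncomputable def cf (m : ℕ) : rees hF →ₗ[R] F m where
  toFun p := ⟨(p : A[X]).coeff m, p.2 m⟩
  map_add' p q := Subtype.ext (by simp)
  map_smul' r p := Subtype.ext (by simp)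

theorem coe_cf (m : ℕ) (p : rees hF) : (cf hF m p : A) = (p : A[X]).coeff m := rfl

theorem eq_hom {m : ℕ} {p : rees hF} (hp : p ∈ piece hF m) : hom hF m (cf hF m p) = p := by
  apply Subtype.ext
  ext j
  rw [coe_hom, coeff_monomial, coe_cf]
  split_ifs with h
  · rw [h]
  · exact (hp j (Ne.symm h)).symm

/-- The component of degree `m`. -/
noncomputable def comp (m : ℕ) : rees hF →ₗ[R] piece hF m :=
  ((hom hF m).comp (cf hF m)).codRestrict _ fun _ => hom_mem hF _ _

theorem coe_comp (m : ℕ) (p : rees hF) :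
    (((comp hF m p : piece hF m) : rees hF) : A[X]) = monomial m ((p : A[X]).coeff m) := rfl

theorem comp_self (m : ℕ) (x : piece hF m) : comp hF m x = x :=
  Subtype.ext (eq_hom hF x.2)

theorem comp_of_ne {m n : ℕ} (h : m ≠ n) (x : piece hF n) : comp hF m (x : rees hF) = 0 := by
  apply Subtype.ext
  apply Subtype.ext
  rw [coe_comp, x.2 m h, map_zero]
  rfl

noncomputable instance decomp : DirectSum.Decomposition (piece hF) where
  decompose' p := ∑ m ∈ (p : A[X]).support, DirectSum.of (fun m => piece hF m) m (comp hF m p)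
  left_inv p := by
    apply Subtype.ext
    rw [map_sum]
    simp only [DirectSum.coeAddMonoidHom_of]
    rw [AddSubmonoidClass.coe_finsetSum]
    simp only [coe_comp]
    exact (as_sum_support (p : A[X])).symm
  right_inv x := by
    apply DFinsupp.ext
    intro m
    have key : comp hF m (DirectSum.coeAddMonoidHom (piece hF) x) = x m := by
      induction x using DirectSum.induction_on with
      | zero => simp
      | of i y =>
        rw [DirectSum.coeAddMonoidHom_of]
        by_cases h : i = m
        · subst h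
          rw [DirectSum.of_eq_same, comp_self]
        · rw [DirectSum.of_eq_of_ne _ _ _ (Ne.symm h), comp_of_ne hF (Ne.symm h)]
      | add x y hx hy => rw [map_add, map_add, hx, hy]; rfl
    rw [← key]
    generalize DirectSum.coeAddMonoidHom (piece hF) x = p
    rw [DFinsupp.finsetSum_apply]
    by_cases hm : m ∈ (p : A[X]).support
    · rw [Finset.sum_eq_single m]
      · rw [DirectSum.of_eq_same]
      · intro b _ hb
        rw [DirectSum.of_eq_of_ne _ _ _ (Ne.symm hb)]
      · intro h; exact absurd hm h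
    · rw [Finset.sum_eq_zero]
      · apply Subtype.ext
        apply Subtype.ext
        rw [coe_comp, notMem_support_iff.1 hm, map_zero]
        rfl
      · intro b hb
        have hb' : m ≠ b := by
          rintro rfl
          exact hm hb
        rw [DirectSum.of_eq_of_ne _ _ _ hb']

noncomputable instance graded : GradedAlgebra (piece hF) where
  one_mem := by
    intro j hj
    change (1 : A[X]).coeff j = 0
    rw [coeff_one, if_neg hj]
  mul_mem := by
    intro m n p q hp hq j hj
    change ((p : A[X]) * (q : A[X])).coeff j = 0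
    rw [coeff_mul]
    refine Finset.sum_eq_zero fun x hx => ?_
    rw [Finset.HasAntidiagonal.mem_antidiagonal] at hx
    by_cases h1 : x.1 = m
    · by_cases h2 : x.2 = n
      · exact absurd (by rw [← hx, h1, h2]) hj
      · rw [hq _ h2, mul_zero]
    · rw [hp _ h1, zero_mul]

theorem flat (h : ∀ m, Module.Free R (F m)) : Module.Flat R (rees hF) := by
  have h1 : ∀ m, Module.Flat R (piece hF m) := by
    intro m
    have := h m
    have : Function.Bijective ((cf hF m).comp (piece hF m).subtype) := by
      constructor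
      · intro x y hxy
        have e : cf hF m (x : rees hF) = cf hF m (y : rees hF) := hxy
        apply Subtype.ext
        rw [← eq_hom hF x.2, ← eq_hom hF y.2, e]
      · intro a
        refine ⟨⟨hom hF m a, hom_mem hF m a⟩, ?_⟩
        apply Subtype.ext
        change (monomial m (a : A)).coeff m = a
        rw [coeff_monomial, if_pos rfl]
    exact Module.Flat.of_linearEquiv (LinearEquiv.ofBijective _ this)
  exact Module.Flat.of_linearEquiv (DirectSum.decomposeLinearEquiv (piece hF))

end rees

/-! ### The filtration of the pentagon algebra -/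

section filtration

variable {R : Type u} [CommRing R] (c : Fin 5 → R)

theorem smul_eq (r : R) (x : QAlg c) : r • x = algebraMap R (QAlg c) r * x :=
  Algebra.smul_def (A := QAlg c) r x

/-- The filtration. -/
noncomputable def Qf (m : ℕ) : Submodule R (QAlg c) :=
  Submodule.span R {x | ∃ n b, b ≤ m ∧ Lev (m - b) n ∧
    x = (∏ i, QB.Vq c i ^ n i) * QB.yq c ^ b}

theorem Qf_mul : Mul (Qf c) where
  one := Submodule.subset_span ⟨fun _ => 0, 0, le_rfl, fun _ => by simp, by simp⟩
  mul := by
    intro m n a b ha hb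
    have h := Submodule.mul_mem_mul ha hb
    rw [Qf, Qf, Submodule.span_mul_span] at h
    refine Submodule.span_mono ?_ h
    rintro _ ⟨_, ⟨n₁, b₁, hb₁, hl₁, rfl⟩, _, ⟨n₂, b₂, hb₂, hl₂, rfl⟩, rfl⟩
    refine ⟨fun i => n₁ i + n₂ i, b₁ + b₂, by omega, ?_, ?_⟩
    · intro l
      have h1 := hl₁ l
      have h2 := hl₂ l
      change n₁ (l + 1) + n₂ (l + 1) + (n₁ (l + 3) + n₂ (l + 3)) ≤
        m + n - (b₁ + b₂) + (n₁ (l + 2) + n₂ (l + 2))
      omega
    · simp only [pow_add, Finset.prod_mul_distrib]
      ring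

/-- The standard monomials of level `m`. -/
def Sm (m : ℕ) : Set ({n : Fin 5 → ℕ // Std n} × Fin 5) :=
  {s | (s.2 : ℕ) ≤ m ∧ Lev (m - s.2) s.1.1}

theorem Qf_eq (m : ℕ) : Qf c m = Submodule.span R (QB.stdm c '' Sm m) := by
  apply le_antisymm
  · refine Submodule.span_le.2 ?_
    rintro _ ⟨n, b, hb, hl, rfl⟩
    have h := span_std (QB.Vq c) (QB.yq c) c (QB.rel c) (QB.yrel c) hb hl
    refine Submodule.span_mono ?_ h
    rintro _ ⟨n', b', h5, hb', hs, hl', rfl⟩
    exact ⟨(⟨n', hs⟩, ⟨b', h5⟩), ⟨hb', hl'⟩, rfl⟩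
  · refine Submodule.span_mono ?_
    rintro _ ⟨s, ⟨hb, hl⟩, rfl⟩
    exact ⟨s.1.1, s.2, hb, hl, rfl⟩

theorem indep : LinearIndependent R (QB.stdm c) := by
  have h := QAlg.std_indep c
  convert h using 1
  ext s
  exact (QB.mk_eq c s).symm

theorem free (m : ℕ) : Module.Free R (Qf c m) := by
  rw [Qf_eq]
  have h : LinearIndependent R (fun s : Sm m => QB.stdm c s) :=
    (indep c).comp _ Subtype.val_injective
  have e : QB.stdm c '' Sm m = Set.range (fun s : Sm m => QB.stdm c s) := by
    rw [Set.image_eq_range]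
  rw [e]
  exact Module.Free.of_basis (Basis.span h)

end filtration

/-! ### Witt vectors of length two -/

section witt

variable {k : Type u} [Field k] [CharP k 2]

/-- The Witt vectors of length two. -/
abbrev W2 (k : Type u) := TruncatedWittVector 2 2 k

omit [CharP k 2] in
theorem trunc_coeff (x : WittVector 2 k) :
    (WittVector.truncate 2 x : W2 k).coeff 0 = WittVector.constantCoeff x :=
  WittVector.coeff_truncate x 0

/-- The residue map. -/
noncomputable def cf0 : W2 k →+* k where
  toFun x := x.coeff 0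
  map_one' := by
    rw [← map_one (WittVector.truncate 2), trunc_coeff, map_one]
  map_zero' := by
    rw [← map_zero (WittVector.truncate 2), trunc_coeff, map_zero]
  map_add' x y := by
    obtain ⟨x, rfl⟩ := WittVector.truncate_surjective 2 2 k x
    obtain ⟨y, rfl⟩ := WittVector.truncate_surjective 2 2 k y
    rw [← map_add, trunc_coeff, trunc_coeff, trunc_coeff, map_add]
  map_mul' x y := by
    obtain ⟨x, rfl⟩ := WittVector.truncate_surjective 2 2 k x
    obtain ⟨y, rfl⟩ := WittVector.truncate_surjective 2 2 k y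
    rw [← map_mul, trunc_coeff, trunc_coeff, trunc_coeff, map_mul]

theorem cf0_apply (x : W2 k) : cf0 x = x.coeff 0 := rfl

theorem cf0_surjective : Function.Surjective (cf0 (k := k)) := fun a =>
  ⟨TruncatedWittVector.mk 2 (fun _ => a), rfl⟩

theorem cf0_ker [PerfectRing k 2] {x : W2 k} (h : cf0 x = 0) : ∃ z, x = 2 * z := by
  obtain ⟨x, rfl⟩ := WittVector.truncate_surjective 2 2 k x
  rw [cf0_apply, trunc_coeff, ← RingHom.mem_ker, WittVector.ker_constantCoeff,
    Ideal.mem_span_singleton'] at h
  obtain ⟨z, rfl⟩ := h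
  refine ⟨WittVector.truncate 2 z, ?_⟩
  rw [map_mul, map_natCast, mul_comm]
  rfl

end witt

/-! ### The reduction -/

section reduction

variable {k K : Type u} [Field k] [Field K] [Algebra k K] [CharP k 2] (d : PD k K)
  (c : Fin 5 → W2 k) (hc : ∀ i, cf0 (c i) = d.c i)

/-- The reduction map of the pentagon algebra. -/
noncomputable def red : QAlg c →+* K :=
  letI : Algebra (W2 k) K := ((algebraMap k K).comp cf0).toAlgebra
  (QB.lift c d.V d.y d.rel (by
    rw [d.yrel]
    refine Finset.sum_congr rfl fun i _ => ?_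
    rw [← hc i]
    rfl)).toRingHom

theorem red_algebraMap (r : W2 k) :
    red d c hc (algebraMap (W2 k) (QAlg c) r) = algebraMap k K (cf0 r) := by
  let : Algebra (W2 k) K := ((algebraMap k K).comp cf0).toAlgebra
  exact AlgHom.commutes (QB.lift c d.V d.y d.rel _) r

theorem red_V (i : Fin 5) : red d c hc (QB.Vq c i) = d.V i := by
  let : Algebra (W2 k) K := ((algebraMap k K).comp cf0).toAlgebra
  exact QB.lift_V c d.V d.y _ _ i

theorem red_y : red d c hc (QB.yq c) = d.y := by
  let : Algebra (W2 k) K := ((algebraMap k K).comp cf0).toAlgebra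
  exact QB.lift_y c d.V d.y _ _

theorem red_mon (n : Fin 5 → ℕ) (b : ℕ) :
    red d c hc ((∏ i, QB.Vq c i ^ n i) * QB.yq c ^ b) = d.mon n * d.y ^ b := by
  rw [map_mul, map_prod, map_pow, red_y]
  simp only [map_pow, red_V]
  rfl

theorem red_smul (r : W2 k) (x : QAlg c) :
    red d c hc (r • x) = cf0 r • red d c hc x := by
  rw [smul_eq, Algebra.smul_def, map_mul, red_algebraMap]

theorem red_mem {m : ℕ} {x : QAlg c} (hx : x ∈ Qf c m) : red d c hc x ∈ d.Wm m := by
  unfold Qf at hx
  induction hx using Submodule.span_induction with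
  | mem x h =>
    obtain ⟨n, b, hb, hl, rfl⟩ := h
    rw [red_mon]
    exact Submodule.subset_span ⟨n, b, hb, hl, rfl⟩
  | zero => rw [map_zero]; exact zero_mem _
  | add x y _ _ hx hy => rw [map_add]; exact add_mem hx hy
  | smul r x _ hx => rw [red_smul]; exact Submodule.smul_mem _ _ hx

theorem red_surj {m : ℕ} {f : K} (hf : f ∈ d.Wm m) : ∃ x ∈ Qf c m, red d c hc x = f := by
  unfold PD.Wm at hf
  induction hf using Submodule.span_induction with
  | mem x h =>
    obtain ⟨n, b, hb, hl, rfl⟩ := h
    exact ⟨_, Submodule.subset_span ⟨n, b, hb, hl, rfl⟩, red_mon d c hc n b⟩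
  | zero => exact ⟨0, zero_mem _, map_zero _⟩
  | add x y _ _ hx hy =>
    obtain ⟨x', hx', rfl⟩ := hx
    obtain ⟨y', hy', rfl⟩ := hy
    exact ⟨x' + y', add_mem hx' hy', map_add _ _ _⟩
  | smul r x _ hx =>
    obtain ⟨x', hx', rfl⟩ := hx
    obtain ⟨r', rfl⟩ := cf0_surjective r
    exact ⟨r' • x', Submodule.smul_mem _ _ hx', red_smul d c hc r' x'⟩

theorem red_ker [IsAlgClosed k] (hk : KumCond d.c) {m : ℕ} {x : QAlg c} (hx : x ∈ Qf c m)
    (h0 : red d c hc x = 0) : ∃ z ∈ Qf c m, x = 2 * z := by
  have h5 : (5 : k) ≠ 0 := by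
    have h2 : (2 : k) = 0 := CharTwo.two_eq_zero
    have : (5 : k) = 1 := by linear_combination 2 * h2
    rw [this]; exact one_ne_zero
  rw [Qf_eq, Finsupp.mem_span_image_iff_linearCombination] at hx
  obtain ⟨l, hl, rfl⟩ := hx
  rw [Finsupp.linearCombination_apply, Finsupp.sum] at h0
  rw [map_sum] at h0
  have h1 : ∑ s ∈ l.support, cf0 (l s) • (d.mon s.1.1 * d.y ^ (s.2 : ℕ)) = 0 := by
    rw [← h0]
    refine Finset.sum_congr rfl fun s _ => ?_
    rw [red_smul]
    congr 1
    exact (red_mon d c hc _ _).symm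
  have h2 := linearIndependent_iff'.1 (PD.std_indep h5 d hk) l.support (fun s => cf0 (l s)) h1
  have h3 : ∀ s, ∃ z, l s = 2 * z := by
    intro s
    by_cases hs : s ∈ l.support
    · exact cf0_ker (h2 s hs)
    · exact ⟨0, by rw [Finsupp.notMem_support_iff.1 hs, mul_zero]⟩
  choose z hz using h3
  refine ⟨∑ s ∈ l.support, z s • QB.stdm c s, ?_, ?_⟩
  · rw [Qf_eq]
    refine sum_mem fun s hs => Submodule.smul_mem _ _ (Submodule.subset_span ⟨s, ?_, rfl⟩)
    exact hl hs
  · rw [Finsupp.linearCombination_apply, Finsupp.sum, Finset.mul_sum]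
    refine Finset.sum_congr rfl fun s _ => ?_
    rw [hz s, smul_eq, smul_eq, map_mul, map_ofNat, mul_assoc]

end reduction

end LIFT

theorem PD.liftsToW2 {k K : Type u} [Field k] [Field K] [Algebra k K] [IsAlgClosed k]
    [CharP k 2] (d : PD k K) (hc : KumCond d.c) : LiftsToW2 d.W := by
  choose c hcc using fun i => LIFT.cf0_surjective (d.c i)
  let hF := LIFT.Qf_mul c
  refine ⟨LIFT.rees hF, inferInstance, inferInstance, LIFT.piece hF, LIFT.graded hF,
    (Polynomial.mapRingHom (LIFT.red d c hcc)).comp (LIFT.rees hF).val.toRingHom,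
    LIFT.flat hF (LIFT.free c), ?_, ?_, ?_⟩
  · intro r
    change Polynomial.map (LIFT.red d c hcc) (algebraMap (LIFT.W2 k) (QAlg c)[X] r) = _
    rw [Polynomial.algebraMap_apply, Polynomial.map_C, LIFT.red_algebraMap]
    rfl
  · intro m
    rw [PD.pow_eq]
    ext x
    constructor
    · rintro ⟨p, hp, rfl⟩
      refine ⟨LIFT.red d c hcc ((p : (QAlg c)[X]).coeff m), LIFT.red_mem d c hcc (p.2 m), ?_⟩
      rw [← LIFT.eq_hom hF hp]
      change Polynomial.map (LIFT.red d c hcc) (monomial m _) = _
      rw [Polynomial.map_monomial, ← C_mul_X_pow_eq_monomial]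
      congr 3
      rw [LIFT.eq_hom hF hp]
      rfl
    · rintro ⟨f, hf, rfl⟩
      obtain ⟨q, hq, rfl⟩ := LIFT.red_surj d c hcc hf
      refine ⟨LIFT.hom hF m ⟨q, hq⟩, LIFT.hom_mem hF m _, ?_⟩
      change Polynomial.map (LIFT.red d c hcc) (monomial m q) = _
      rw [Polynomial.map_monomial, ← C_mul_X_pow_eq_monomial]
  · have h2K : (2 : K) = 0 := by
      have : (2 : k) = 0 := CharTwo.two_eq_zero
      rw [← map_ofNat (algebraMap k K), this, map_zero]
    apply le_antisymm
    · intro p hp
      have hp' : Polynomial.map (LIFT.red d c hcc) (p : (QAlg c)[X]) = 0 := hp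
      have h1 : ∀ m, ∃ z : LIFT.Qf c m, (p : (QAlg c)[X]).coeff m = 2 * (z : QAlg c) := by
        intro m
        obtain ⟨z, hz, he⟩ := LIFT.red_ker d c hcc hc (p.2 m) (by
          have := congrArg (fun q => Polynomial.coeff q m) hp'
          simpa using this)
        exact ⟨⟨z, hz⟩, he⟩
      choose z hz using h1
      rw [Ideal.mem_span_singleton']
      refine ⟨∑ m ∈ (p : (QAlg c)[X]).support, LIFT.hom hF m (z m), ?_⟩
      apply Subtype.ext
      rw [mul_comm]
      change (2 : (QAlg c)[X]) * ((∑ m ∈ (p : (QAlg c)[X]).support, LIFT.hom hF m (z m) :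
        LIFT.rees hF) : (QAlg c)[X]) = p
      rw [AddSubmonoidClass.coe_finsetSum, Finset.mul_sum]
      conv_rhs => rw [as_sum_support (p : (QAlg c)[X])]
      refine Finset.sum_congr rfl fun m _ => ?_
      rw [LIFT.coe_hom, hz m, ← C_ofNat 2, C_mul_monomial]
    · rw [Ideal.span_singleton_le_iff_mem, RingHom.mem_ker]
      rw [map_ofNat]
      rw [← C_ofNat 2, h2K, map_zero]

end Pool.Agent.helper97.BG
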