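import Pool.Agent.helper18.BG.EX
import Pool.Agent.helper88.BG.IT
import Pool.Agent.helper60.BG.DEC
import Pool.Agent.helper65.BG.SPAN

/-!
# The pentagon algebra over an arbitrary ring is free on the standard monomials
-/

namespace Pool.Agent.helper97.BG

open Polynomial Filter Module

universe u

namespace QB

section

variable {R : Type*} [CommRing R] (c : Fin 5 → R)

/-- the generators -/
noncomputable def Vq (i : Fin 5) : QAlg c := Ideal.Quotient.mk (QIdeal c) (MvPolynomial.X (some i))

/-- the generator `y` -/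
noncomputable def yq : QAlg c := Ideal.Quotient.mk (QIdeal c) (MvPolynomial.X none)

theorem rel (i : Fin 5) : Vq c i ^ 5 + Vq c (i + 2) ^ 5 * Vq c (i + 3) ^ 5 = 1 := by
  have : Ideal.Quotient.mk (QIdeal c) (MvPolynomial.X (some i) ^ 5 +
      MvPolynomial.X (some (i + 2)) ^ 5 * MvPolynomial.X (some (i + 3)) ^ 5 - 1) = 0 :=
    Ideal.Quotient.eq_zero_iff_mem.2 (Ideal.subset_span (Or.inr ⟨i, rfl⟩))
  rw [map_sub, map_add, map_mul, map_pow, map_pow, map_pow, map_one] at this
  exact sub_eq_zero.1 this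

theorem algebraMap_eq (r : R) : algebraMap R (QAlg c) r =
    Ideal.Quotient.mk (QIdeal c) (MvPolynomial.C r) := rfl

theorem yrel : yq c ^ 5 = ∑ i, algebraMap R (QAlg c) (c i) * Vq c i ^ 5 := by
  have : Ideal.Quotient.mk (QIdeal c) (MvPolynomial.X none ^ 5 - ∑ i, MvPolynomial.C (c i) *
      MvPolynomial.X (some i) ^ 5) = 0 :=
    Ideal.Quotient.eq_zero_iff_mem.2 (Ideal.subset_span (Or.inl rfl))
  rw [map_sub, map_pow, map_sum] at this
  simp only [map_mul, map_pow] at this
  exact sub_eq_zero.1 this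

/-- The universal property. -/
noncomputable def lift {A : Type*} [CommRing A] [Algebra R A] (V : Fin 5 → A) (y : A)
    (rel : ∀ i, V i ^ 5 + V (i + 2) ^ 5 * V (i + 3) ^ 5 = 1)
    (yrel : y ^ 5 = ∑ i, algebraMap R A (c i) * V i ^ 5) : QAlg c →ₐ[R] A :=
  Ideal.Quotient.liftₐ (QIdeal c) (MvPolynomial.aeval (fun o : Option (Fin 5) => o.elim y V)) (by
    intro a ha
    have h : QIdeal c ≤ RingHom.ker
        (MvPolynomial.aeval (R := R) (fun o : Option (Fin 5) => o.elim y V)) := by
      unfold QIdeal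
      rw [Ideal.span_le]
      rintro p (rfl | ⟨i, rfl⟩)
      · simp [RingHom.mem_ker, yrel]
      · simp [RingHom.mem_ker, rel]
    exact h ha)

section

variable {A : Type*} [CommRing A] [Algebra R A] (V : Fin 5 → A) (y : A)
    (rel : ∀ i, V i ^ 5 + V (i + 2) ^ 5 * V (i + 3) ^ 5 = 1)
    (yrel : y ^ 5 = ∑ i, algebraMap R A (c i) * V i ^ 5)

theorem lift_V (i : Fin 5) : lift c V y rel yrel (Vq c i) = V i := by
  change MvPolynomial.aeval (R := R) (fun o : Option (Fin 5) => o.elim y V)
    (MvPolynomial.X (some i)) = V i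
  simp

theorem lift_y : lift c V y rel yrel (yq c) = y := by
  change MvPolynomial.aeval (R := R) (fun o : Option (Fin 5) => o.elim y V)
    (MvPolynomial.X none) = y
  simp

end

/-- The standard monomials. -/
noncomputable def stdm (s : {n : Fin 5 → ℕ // Std n} × Fin 5) : QAlg c :=
  (∏ i, Vq c i ^ s.1.1 i) * yq c ^ (s.2 : ℕ)

theorem lift_stdm {A : Type*} [CommRing A] [Algebra R A] (V : Fin 5 → A) (y : A)
    (rel : ∀ i, V i ^ 5 + V (i + 2) ^ 5 * V (i + 3) ^ 5 = 1)
    (yrel : y ^ 5 = ∑ i, algebraMap R A (c i) * V i ^ 5) (s : {n : Fin 5 → ℕ // Std n} × Fin 5) :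
    lift c V y rel yrel (stdm c s) = (∏ i, V i ^ s.1.1 i) * y ^ (s.2 : ℕ) := by
  rw [stdm, map_mul, map_prod, map_pow, lift_y]
  simp only [map_pow, lift_V]

theorem mk_eq (s : {n : Fin 5 → ℕ // Std n} × Fin 5) :
    Ideal.Quotient.mk (QIdeal c) ((∏ i, MvPolynomial.X (some i) ^ s.1.1 i) *
        MvPolynomial.X none ^ (s.2 : ℕ)) = stdm c s := by
  rw [stdm, map_mul, map_prod, map_pow]
  simp only [map_pow]
  rfl

theorem mem_span (n : Fin 5 → ℕ) (b : ℕ) :
    (∏ i, Vq c i ^ n i) * yq c ^ b ∈ Submodule.span R (Set.range (stdm c)) := by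
  have h := span_std (Vq c) (yq c) c (rel c) (yrel c) (m := b + ∑ i, n i) (b := b) (n := n)
    (by omega) (by
      intro l
      rw [Nat.add_sub_cancel_left, Fin.sum_univ_five]
      fin_cases l <;> simp <;> omega)
  refine Submodule.span_mono ?_ h
  rintro x ⟨n', b', hb', -, hs, -, rfl⟩
  exact ⟨(⟨n', hs⟩, ⟨b', hb'⟩), rfl⟩

theorem span_top : Submodule.span R (Set.range (stdm c)) = ⊤ := by
  rw [eq_top_iff]
  rintro x -
  obtain ⟨p, rfl⟩ := Ideal.Quotient.mk_surjective x
  induction p using MvPolynomial.induction_on' with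
  | monomial e r =>
    have : Ideal.Quotient.mk (QIdeal c) (MvPolynomial.monomial e r) =
        algebraMap R (QAlg c) r * ((∏ i, Vq c i ^ e (some i)) * yq c ^ e none) := by
      rw [MvPolynomial.monomial_eq, Finsupp.prod_fintype _ _ (fun _ => pow_zero _),
        Fintype.prod_option, map_mul, map_mul, map_prod, map_pow, algebraMap_eq]
      simp only [map_pow]
      rw [mul_comm (Ideal.Quotient.mk (QIdeal c) (MvPolynomial.X none) ^ e none)]
      rfl
    rw [this, ← Algebra.smul_def]
    exact Submodule.smul_mem _ _ (mem_span c _ _)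
  | add p q hp hq => rw [map_add]; exact Submodule.add_mem _ hp hq

end

/-- The universal coefficient ring. -/
abbrev R0 := MvPolynomial (Fin 5) ℤ

/-- The universal coefficients. -/
noncomputable abbrev c0 : Fin 5 → R0 := MvPolynomial.X

theorem ne_of_eval {p : R0} (h : MvPolynomial.eval (fun _ => (1 : ℤ)) p ≠ 0) : p ≠ 0 := by
  rintro rfl
  simp at h

theorem indep0 : LinearIndependent R0 (stdm c0) := by
  let k0 := AlgebraicClosure (FractionRing R0)
  let φ : R0 →+* k0 := algebraMap R0 k0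
  have hφ : Function.Injective φ := by
    change Function.Injective (algebraMap R0 k0)
    rw [IsScalarTower.algebraMap_eq R0 (FractionRing R0) k0]
    exact (algebraMap (FractionRing R0) k0).injective.comp
      (IsFractionRing.injective R0 (FractionRing R0))
  have hne : ∀ p : R0, p ≠ 0 → φ p ≠ 0 := fun p hp h => hp (hφ (by rw [h, map_zero]))
  obtain ⟨K, _, _, d, hd⟩ := exists_PD (k := k0) (fun i => φ (MvPolynomial.X i))
  have h5 : (5 : k0) ≠ 0 := by
    have := hne 5 (ne_of_eval (by simp))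
    rwa [map_ofNat] at this
  have hc : KumCond d.c := by
    rw [hd]
    refine ⟨?_, ?_, ?_, ?_, ?_⟩
    · have := hne (MvPolynomial.X 2 + MvPolynomial.X 3 + MvPolynomial.X 4) (ne_of_eval (by simp))
      simpa using this
    · have := hne (MvPolynomial.X 0 + MvPolynomial.X 3 + MvPolynomial.X 4) (ne_of_eval (by simp))
      simpa using this
    · have := hne (MvPolynomial.X 1 + MvPolynomial.X 2 + MvPolynomial.X 3) (ne_of_eval (by simp))
      simpa using this
    · exact hne (MvPolynomial.X 2) (ne_of_eval (by simp))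
    · exact hne (MvPolynomial.X 0) (ne_of_eval (by simp))
  have hind := PD.std_indep h5 d hc
  let : Algebra R0 K := ((algebraMap k0 K).comp φ).toAlgebra
  have : IsScalarTower R0 k0 K := IsScalarTower.of_algebraMap_eq fun _ => rfl
  have hind' : LinearIndependent R0
      (fun s : {n : Fin 5 → ℕ // Std n} × Fin 5 => d.mon s.1.1 * d.y ^ (s.2 : ℕ)) := by
    refine hind.restrict_scalars ?_
    intro a b hab
    apply hφ
    have : a • (1 : k0) = b • (1 : k0) := hab
    rw [Algebra.smul_def, Algebra.smul_def, mul_one, mul_one] at this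
    exact this
  have hrel : ∀ i, d.V i ^ 5 + d.V (i + 2) ^ 5 * d.V (i + 3) ^ 5 = 1 := d.rel
  have hyrel : d.y ^ 5 = ∑ i, algebraMap R0 K (c0 i) * d.V i ^ 5 := by
    rw [d.yrel, hd]
    rfl
  refine LinearIndependent.of_comp (lift c0 d.V d.y hrel hyrel).toLinearMap ?_
  convert hind' using 1
  ext s
  exact lift_stdm c0 d.V d.y hrel hyrel s

/-- The universal basis. -/
noncomputable def b0 : Basis ({n : Fin 5 → ℕ // Std n} × Fin 5) R0 (QAlg c0) :=
  Basis.mk indep0 (span_top c0).ge

theorem rel_map {T : Type*} [CommRing T] [Algebra R0 T] (j : QAlg c0 →ₐ[R0] T) (i : Fin 5) :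
    j (Vq c0 i) ^ 5 + j (Vq c0 (i + 2)) ^ 5 * j (Vq c0 (i + 3)) ^ 5 = 1 := by
  rw [← map_pow, ← map_pow, ← map_pow, ← map_mul, ← map_add, rel, map_one]

theorem yrel_map {R T : Type*} [CommRing R] [Algebra R0 R] [CommRing T] [Algebra R0 T]
    [Algebra R T] [IsScalarTower R0 R T] (j : QAlg c0 →ₐ[R0] T) (c : Fin 5 → R)
    (hX : ∀ i, algebraMap R0 R (MvPolynomial.X i) = c i) :
    j (yq c0) ^ 5 = ∑ i, algebraMap R T (c i) * j (Vq c0 i) ^ 5 := by
  rw [← map_pow, yrel, map_sum]
  refine Finset.sum_congr rfl fun i _ => ?_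
  rw [map_mul, map_pow, AlgHom.commutes, ← hX i, ← IsScalarTower.algebraMap_apply]

theorem stdm_map {T : Type*} [CommRing T] [Algebra R0 T] (j : QAlg c0 →ₐ[R0] T)
    (s : {n : Fin 5 → ℕ // Std n} × Fin 5) :
    j (stdm c0 s) = (∏ i, j (Vq c0 i) ^ s.1.1 i) * j (yq c0) ^ (s.2 : ℕ) := by
  rw [stdm, map_mul, map_prod, map_pow]
  simp only [map_pow]

theorem indep_of_basis {R T : Type*} [CommRing R] [Algebra R0 R] [CommRing T] [Algebra R0 T]
    [Algebra R T] [IsScalarTower R0 R T] (j : QAlg c0 →ₐ[R0] T) (c : Fin 5 → R)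
    (hX : ∀ i, algebraMap R0 R (MvPolynomial.X i) = c i)
    (hj : LinearIndependent R (fun s => j (stdm c0 s))) : LinearIndependent R (stdm c) := by
  refine LinearIndependent.of_comp (lift c (fun i => j (Vq c0 i)) (j (yq c0))
    (rel_map j) (yrel_map j c hX)).toLinearMap ?_
  convert hj using 1
  ext s
  rw [stdm_map]
  exact lift_stdm c (fun i => j (Vq c0 i)) (j (yq c0)) (rel_map j) (yrel_map j c hX) s

theorem indep_of_algebra {R : Type*} [CommRing R] [Algebra R0 R] (c : Fin 5 → R)
    (hX : ∀ i, algebraMap R0 R (MvPolynomial.X i) = c i) : LinearIndependent R (stdm c) := by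
  refine indep_of_basis (T := TensorProduct R0 R (QAlg c0))
    Algebra.TensorProduct.includeRight c hX ?_
  have h1 := (Algebra.TensorProduct.basis R b0).linearIndependent
  have h2 : (fun s => (Algebra.TensorProduct.includeRight :
      QAlg c0 →ₐ[R0] TensorProduct R0 R (QAlg c0)) (stdm c0 s)) =
      Algebra.TensorProduct.basis R b0 := by
    ext s
    rw [Algebra.TensorProduct.basis_apply, b0, Basis.mk_apply]
    rfl
  rw [← h2] at h1
  exact h1

end QB

theorem QAlg.std_indep {R : Type*} [CommRing R] (c : Fin 5 → R) :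
    LinearIndependent R (fun s : {n : Fin 5 → ℕ // Std n} × Fin 5 =>
      Ideal.Quotient.mk (QIdeal c) ((∏ i, MvPolynomial.X (some i) ^ s.1.1 i) *
        MvPolynomial.X none ^ (s.2 : ℕ))) := by
  let : Algebra QB.R0 R := (MvPolynomial.eval₂Hom (Int.castRingHom R) c).toAlgebra
  have h := QB.indep_of_algebra c (fun i => by
    change MvPolynomial.eval₂Hom (Int.castRingHom R) c (MvPolynomial.X i) = c i
    simp)
  convert h using 1
  ext s
  exact QB.mk_eq c s

end Pool.Agent.helper97.BG
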